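import Mathlib

set_option autoImplicit false

namespace Pool.Agent.Results.MP_2ca583_ag.NeverOrdinary

open Polynomial

universe u

/-- The Hasse-Witt (Cartier-Manin) matrix of the hyperelliptic curve `y ^ 2 = f (x)` of genus `g`
over a field of characteristic `p > 2`, where `deg f = 2 g + 1`: for `1 ≤ i, j ≤ g` its `(i, j)`
entry is the coefficient of `x ^ (p i - j)` in `f ^ ((p - 1) / 2)` (and `0` if `p i - j < 0`).
Indices here start from `0`, so that `i, j` stand for `i + 1, j + 1`. -/
noncomputable def hasseWitt {k : Type u} [Field k] (p g : ℕ) (f : k[X]) :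
    Matrix (Fin g) (Fin g) k :=
  fun i j => if (j : ℕ) + 1 ≤ p * ((i : ℕ) + 1)
    then (f ^ ((p - 1) / 2)).coeff (p * ((i : ℕ) + 1) - ((j : ℕ) + 1)) else 0

/-- The hyperelliptic curve branched at `Λ ∪ {∞, μ}`, i.e. `y ^ 2 = (x - μ) ∏ (x - λ)`, of genus
`g` (where `Λ` has `2 g` elements), is ordinary: its Hasse-Witt matrix is invertible. -/
def Ordinary {k : Type u} [Field k] (p g : ℕ) (Λ : Finset k) (μ : k) : Prop :=
  (hasseWitt p g ((X - C μ) * ∏ l ∈ Λ, (X - C l))).det ≠ 0

theorem coeff_zero_of_range {k : Type u} [Field k] (p : ℕ) (hp : 3 ≤ p) (hodd : p % 2 = 1)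
    (μ : k) (m : ℕ) (h1 : p ≤ m) (h2 : m ≤ 2 * p - 1) :
    ((((X - C μ) * (X ^ (2 * p) + X) : k[X])) ^ ((p - 1) / 2)).coeff m = 0 := by
  set e := (p - 1) / 2 with he
  have he1 : 2 * e = p - 1 := by omega
  have hfac : (X ^ (2 * p) + X : k[X]) = X * (X ^ (2 * p - 1) + 1) := by
    have : 2 * p = (2 * p - 1) + 1 := by omega
    conv_lhs => rw [this]
    ring
  obtain ⟨B, hB⟩ : ∃ B : k[X], (X ^ (2 * p - 1) + 1 : k[X]) ^ e = 1 + X ^ (2 * p - 1) * B := by
    have hdvd : (X ^ (2 * p - 1) : k[X]) ∣ (X ^ (2 * p - 1) + 1) ^ e - 1 := by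
      have := sub_dvd_pow_sub_pow (X ^ (2 * p - 1) + 1 : k[X]) 1 e
      simpa using this
    obtain ⟨B, hB⟩ := hdvd
    exact ⟨B, by rw [← hB]; ring⟩
  have hprod : (((X - C μ) * (X ^ (2 * p) + X) : k[X])) ^ e =
      (X - C μ) ^ e * X ^ e + X ^ (2 * p - 1 + e) * ((X - C μ) ^ e * B) := by
    rw [hfac, mul_pow, mul_pow, hB]
    ring
  rw [hprod, coeff_add]
  have hA : ((X - C μ) ^ e * X ^ e : k[X]).coeff m = 0 := by
    apply coeff_eq_zero_of_natDegree_lt
    refine lt_of_le_of_lt natDegree_mul_le ?_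
    rw [natDegree_pow, natDegree_X_sub_C, natDegree_X_pow]
    omega
  have hB' : (X ^ (2 * p - 1 + e) * ((X - C μ) ^ e * B) : k[X]).coeff m = 0 := by
    rw [coeff_X_pow_mul']
    rw [if_neg (by omega)]
  rw [hA, hB', add_zero]

/-- For every odd prime `p` and every algebraically closed field `k` of characteristic `p` there
are `g ≥ 1` and a set `Λ` of `2 g` elements of `k` such that for no `μ` outside `Λ` the curve
`y ^ 2 = (x - μ) ∏ (x - λ)` is ordinary (one can take `g = p`). -/
theorem result (p : ℕ) (hp : p.Prime) (hp2 : 2 < p) (k : Type u) [Field k] [IsAlgClosed k]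
    [CharP k p] :
    ∃ (g : ℕ) (Λ : Finset k), 1 ≤ g ∧ Λ.card = 2 * g ∧
      ∀ μ : k, μ ∉ Λ → ¬ Ordinary p g Λ μ := by
  classical
  have hodd : p % 2 = 1 := by
    rcases hp.eq_two_or_odd with h | h
    · omega
    · exact h
  set h : k[X] := X ^ (2 * p) + X with hh
  have hnat : h.natDegree = 2 * p := by
    rw [hh]
    have : (X : k[X]).natDegree < (X ^ (2 * p) : k[X]).natDegree := by
      rw [natDegree_X, natDegree_X_pow]; omega
    rw [natDegree_add_eq_left_of_natDegree_lt this, natDegree_X_pow]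
  have hmonic : h.Monic := by
    rw [hh]
    apply monic_X_pow_add
    rw [degree_X]
    exact_mod_cast (by omega : 1 < 2 * p)
  have hder : derivative h = 1 := by
    rw [hh, derivative_add, derivative_X_pow, derivative_X]
    have : ((2 * p : ℕ) : k[X]) = 0 := by
      rw [Nat.cast_mul, CharP.cast_eq_zero k[X] p, mul_zero]
    have h3 : (C ((2 * p : ℕ) : k) : k[X]) = 0 := by
      rw [Nat.cast_mul, CharP.cast_eq_zero k p, mul_zero, C_0]
    rw [h3, zero_mul, zero_add]
  have hsep : h.Separable := by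
    rw [separable_def, hder]
    exact isCoprime_one_right
  have hsplits : h.Splits := IsAlgClosed.splits h
  have hnodup : h.roots.Nodup := nodup_roots hsep
  have hcard : h.roots.toFinset.card = 2 * p := by
    rw [Multiset.toFinset_card_of_nodup hnodup, ← hsplits.natDegree_eq_card_roots, hnat]
  have hprod : ∏ l ∈ h.roots.toFinset, (X - C l) = h := by
    rw [Finset.prod_eq_multiset_prod, Multiset.toFinset_val, Multiset.dedup_eq_self.mpr hnodup]
    exact (hsplits.eq_prod_roots_of_monic hmonic).symm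
  refine ⟨p, h.roots.toFinset, by omega, hcard, fun μ _ hord => hord ?_⟩
  rw [hprod]
  refine Matrix.det_eq_zero_of_row_eq_zero (⟨1, by omega⟩ : Fin p) fun j => ?_
  unfold hasseWitt
  split_ifs with hj
  · have hjlt := j.isLt
    apply coeff_zero_of_range p (by omega) hodd μ
    · simp only; omega
    · simp only; omega
  · rfl

end Pool.Agent.Results.MP_2ca583_ag.NeverOrdinary
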